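import Pool.Agent.helper64.PB.SpecC

/-!
Row pb:SEL (helper9).
-/

set_option autoImplicit false
set_option linter.unusedVariables false

namespace Pool.Agent.PB

/-- `x_0` if `x_0 = ... = x_k` and `not x_0` otherwise -/
def SEL_w (N k : ℕ) : BF (N + 1) :=
  fun x => if (∀ i : Fin (N + 1), (i : ℕ) ≤ k → x i = x 0) then x 0 else !(x 0)

theorem SEL_zero (N : ℕ) : SEL_w N 0 = fun x => x 0 := by
  funext x
  unfold SEL_w
  rw [if_pos]
  intro i hi
  have : i = 0 := by
    apply Fin.ext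
    simpa using hi
  rw [this]

theorem SEL_succ (N k : ℕ) (hk : k + 1 ≤ N) (φ : Fin 3 → BF (N + 1))
    (h0 : φ 0 = fun x => x ⟨k + 1, by omega⟩) (h1 : φ 1 = SEL_w N k) (h2 : φ 2 = fun x => x 0) :
    SEL_w N (k + 1) = fun x => fD fun i => φ i x := by
  funext x
  show SEL_w N (k + 1) x = ((φ 0 x && φ 1 x) || (φ 0 x && !(φ 2 x)) || (φ 1 x && !(φ 2 x)))
  rw [h0, h1, h2]
  unfold SEL_w
  by_cases hx : x ⟨k + 1, by omega⟩ = x 0
  · have hiff : (∀ i : Fin (N + 1), (i : ℕ) ≤ k + 1 → x i = x 0) ↔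
        ∀ i : Fin (N + 1), (i : ℕ) ≤ k → x i = x 0 := by
      constructor
      · intro h i hi
        exact h i (by omega)
      · intro h i hi
        rcases Nat.lt_or_ge (i : ℕ) (k + 1) with h' | h'
        · exact h i (by omega)
        · have : i = ⟨k + 1, by omega⟩ := Fin.ext (by simp; omega)
          rw [this]
          exact hx
    rw [if_congr hiff rfl rfl]
    simp only [hx]
    split_ifs <;> cases x 0 <;> rfl
  · have hno : ¬ ∀ i : Fin (N + 1), (i : ℕ) ≤ k + 1 → x i = x 0 := fun h => hx (h _ (by simp))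
    rw [if_neg hno]
    have hx' : x ⟨k + 1, by omega⟩ = !(x 0) := by
      revert hx
      cases x ⟨k + 1, by omega⟩ <;> cases x 0 <;> simp
    simp only [hx']
    split_ifs <;> cases x 0 <;> rfl

theorem SEL_last (N : ℕ) : SEL_w N N = fNE N := by
  funext x
  unfold SEL_w fNE
  have hiff : (∀ i : Fin (N + 1), (i : ℕ) ≤ N → x i = x 0) ↔ ∀ i, x i = x 0 :=
    ⟨fun h i => h i (by omega), fun h i _ => h i⟩
  rw [if_congr hiff rfl rfl]

theorem SEL (hSUB : SUB_stmt) (hAPP : APP_stmt) : SEL_stmt := by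
  intro G hG
  obtain ⟨s, hs⟩ := hG
  refine ⟨s, fun N => ?_⟩
  have key : ∀ k, k ≤ N → ∃ l, Prog G (N + 1) l ∧ l.length ≤ s * k ∧ Av l (SEL_w N k) := by
    intro k
    induction k with
    | zero =>
      intro _
      exact ⟨[], Prog.nil, by simp, Or.inr ⟨0, SEL_zero N⟩⟩
    | succ k ih =>
      intro hk
      obtain ⟨l, hl, hlen, hav⟩ := ih (by omega)
      obtain ⟨φ, h0, h1, h2⟩ : ∃ φ : Fin 3 → BF (N + 1), (φ 0 = fun x => x ⟨k + 1, by omega⟩) ∧
          φ 1 = SEL_w N k ∧ φ 2 = fun x => x 0 :=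
        ⟨![fun x => x ⟨k + 1, by omega⟩, SEL_w N k, fun x => x 0], rfl, rfl, rfl⟩
      have hφ : ∀ i, Av l (φ i) := by
        intro i
        fin_cases i
        · exact Or.inr ⟨_, h0⟩
        · show Av l (φ 1)
          rw [h1]
          exact hav
        · exact Or.inr ⟨_, h2⟩
      obtain ⟨l', hl', hlen', hav'⟩ := hSUB G 3 (N + 1) fD s l φ hs hl hφ
      refine ⟨l' ++ l, hl', ?_, ?_⟩
      · rw [List.length_append, Nat.mul_succ]
        omega
      · rw [SEL_succ N k hk φ h0 h1 h2]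
        exact hav'
  obtain ⟨l, hl, hlen, hav⟩ := key N le_rfl
  rw [SEL_last] at hav
  refine ⟨l, hl, hlen.trans ?_, hav⟩
  exact Nat.mul_le_mul_left _ (by omega)

end Pool.Agent.PB
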